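import Pool.Agent.helper88.RL.SpecL
import Pool.Agent.helper16.RF.WSE

/-!
# RL (MP_16912e_nt), row Z3: the determinant
-/

set_option autoImplicit false

namespace Pool.Agent.RL

open Finset Pool.Agent.helper3.FT Pool.Agent.T6 Pool.Agent.RF

theorem Z3_div {R : Type} [CommRing R] (h A A' B X n k n' k' : R) (hc : IsCoprime h (5 * n' ^ 3))
    (f1 : h ∣ 5 * A * n ^ 3 - 2 * A' * n * k ^ 2 + B * k ^ 3)
    (f2 : h ∣ A' * n ^ 3 + 2 * B * n ^ 2 * k - 5 * X * k ^ 3)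
    (g1 : h ∣ 5 * A * n' ^ 3 - 2 * A' * n' * k' ^ 2 + B * k' ^ 3)
    (g2 : h ∣ A' * n' ^ 3 + 2 * B * n' ^ 2 * k' - 5 * X * k' ^ 3) :
    h ∣ ((n * k') ^ 2 + 3 * (n * k') * (n' * k) + (n' * k) ^ 2) ^ 2 * (n * k' - n' * k) * A ∧
    h ∣ ((n * k') ^ 2 + 3 * (n * k') * (n' * k) + (n' * k) ^ 2) ^ 2 * (n * k' - n' * k) * A' := by
  have e1 : h ∣ (n * k' - n' * k) * (2 * n * n' * (n * k' + n' * k) * A' -
      ((n * k') ^ 2 + (n * k') * (n' * k) + (n' * k) ^ 2) * B) := by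
    have : (n * k' - n' * k) * (2 * n * n' * (n * k' + n' * k) * A' -
          ((n * k') ^ 2 + (n * k') * (n' * k) + (n' * k) ^ 2) * B) =
        n' ^ 3 * (5 * A * n ^ 3 - 2 * A' * n * k ^ 2 + B * k ^ 3) -
          n ^ 3 * (5 * A * n' ^ 3 - 2 * A' * n' * k' ^ 2 + B * k' ^ 3) := by
      ring
    rw [this]
    exact dvd_sub (Dvd.dvd.mul_left f1 _) (Dvd.dvd.mul_left g1 _)
  have e2 : h ∣ (n * k' - n' * k) * (((n * k') ^ 2 + (n * k') * (n' * k) + (n' * k) ^ 2) * A' +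
      2 * k * k' * (n * k' + n' * k) * B) := by
    have : (n * k' - n' * k) * (((n * k') ^ 2 + (n * k') * (n' * k) + (n' * k) ^ 2) * A' +
          2 * k * k' * (n * k' + n' * k) * B) =
        k' ^ 3 * (A' * n ^ 3 + 2 * B * n ^ 2 * k - 5 * X * k ^ 3) -
          k ^ 3 * (A' * n' ^ 3 + 2 * B * n' ^ 2 * k' - 5 * X * k' ^ 3) := by
      ring
    rw [this]
    exact dvd_sub (Dvd.dvd.mul_left f2 _) (Dvd.dvd.mul_left g2 _)
  have e3 : h ∣ ((n * k') ^ 2 + 3 * (n * k') * (n' * k) + (n' * k) ^ 2) ^ 2 * (n * k' - n' * k) * A' := by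
    have := dvd_add (Dvd.dvd.mul_left e1 (2 * k * k' * (n * k' + n' * k)))
      (Dvd.dvd.mul_left e2 ((n * k') ^ 2 + (n * k') * (n' * k) + (n' * k) ^ 2))
    refine this.trans (dvd_of_eq ?_)
    ring
  have e4 : h ∣ ((n * k') ^ 2 + 3 * (n * k') * (n' * k) + (n' * k) ^ 2) ^ 2 * (n * k' - n' * k) * B := by
    have := dvd_sub (Dvd.dvd.mul_left e2 (2 * n * n' * (n * k' + n' * k)))
      (Dvd.dvd.mul_left e1 ((n * k') ^ 2 + (n * k') * (n' * k) + (n' * k) ^ 2))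
    refine this.trans (dvd_of_eq ?_)
    ring
  refine ⟨hc.dvd_of_dvd_mul_left ?_, e3⟩
  have := dvd_sub (dvd_add (Dvd.dvd.mul_left g1
    (((n * k') ^ 2 + 3 * (n * k') * (n' * k) + (n' * k) ^ 2) ^ 2 * (n * k' - n' * k)))
    (Dvd.dvd.mul_left e3 (2 * n' * k' ^ 2))) (Dvd.dvd.mul_left e4 (k' ^ 3))
  refine this.trans (dvd_of_eq ?_)
  ring

theorem Z3_nrm (n k : ℤ) : (⟨n, k⟩ : OO) * star (⟨n, k⟩ : OO) = ((n ^ 2 + n * k - k ^ 2 : ℤ) : OO) := by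
  rw [pow_two, pow_two]
  ext <;> simp <;> ring

theorem Z3_cast (X Y : ℤ) : ((X ^ 2 * Y : ℤ) : OO) = ((X : ℤ) : OO) ^ 2 * ((Y : ℤ) : OO) := by
  rw [Int.cast_mul, Int.cast_pow]

theorem Z3_re (m : ℤ) (x : OO) : ((m : OO) * x).re = m * x.re ∧ ((m : OO) * x).im = m * x.im := by
  constructor <;> simp

theorem Z3_E (n k r : ℤ) :
    ((⟨n, k⟩ : OO) * star (⟨r, 1⟩ : OO)) ^ 2 + 3 * ((⟨n, k⟩ : OO) * star (⟨r, 1⟩ : OO)) *
      ((⟨r, 1⟩ : OO) * star (⟨n, k⟩ : OO)) + ((⟨r, 1⟩ : OO) * star (⟨n, k⟩ : OO)) ^ 2 =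
      ((5 * (((n + k) * r - k) * (n * r + n - k)) : ℤ) : OO) := by
  have h1 := WSE_dt (⟨n, k⟩ : OO) ⟨r, 1⟩
  have h2 := Z3_nrm n k
  have h3 := Z3_nrm r 1
  have h4 : ((⟨n, k⟩ : OO) * star (⟨r, 1⟩ : OO)) ^ 2 + 3 * ((⟨n, k⟩ : OO) * star (⟨r, 1⟩ : OO)) *
      ((⟨r, 1⟩ : OO) * star (⟨n, k⟩ : OO)) + ((⟨r, 1⟩ : OO) * star (⟨n, k⟩ : OO)) ^ 2 =
      ((⟨n, k⟩ : OO) * star (⟨r, 1⟩ : OO) - (⟨r, 1⟩ : OO) * star (⟨n, k⟩ : OO)) ^ 2 +
        5 * (((⟨n, k⟩ : OO) * star (⟨n, k⟩ : OO)) * ((⟨r, 1⟩ : OO) * star (⟨r, 1⟩ : OO))) := by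
    ring
  rw [h4, h1, h2, h3, mul_pow, pow_two r5, WSE_r5]
  have h5 : dt (⟨n, k⟩ : OO) ⟨r, 1⟩ = k * r - n := by
    show k * r - n * 1 = k * r - n
    ring
  rw [h5]
  have h6 : (5 * (((n + k) * r - k) * (n * r + n - k)) : ℤ) =
      5 * (k * r - n) ^ 2 + 5 * ((n ^ 2 + n * k - k ^ 2) * (r ^ 2 + r * 1 - 1 ^ 2)) := by ring
  rw [h6]
  simp only [Int.cast_add, Int.cast_mul, Int.cast_pow, Int.cast_ofNat, Int.cast_sub, Int.cast_one]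

theorem Z3_cop (h : ℕ) (n k : ℤ) (hc : IsCoprime (h : ℤ) (5 * (n ^ 2 + n * k - k ^ 2))) :
    IsCoprime (h : OO) (5 * ((⟨n, k⟩ : OO) * star (⟨n, k⟩ : OO))) := by
  have h1 := hc.map (Int.castRingHom OO)
  rw [Z3_nrm]
  rw [eq_intCast, eq_intCast, Int.cast_mul, Int.cast_natCast, Int.cast_ofNat] at h1
  exact h1

theorem Z3 (h1 : WSE_stmt) : Z3_stmt := by
  intro p a r n k v hp hp5 ha hr hnk hW hPm hG
  have hpp : Prime (p : ℤ) := Nat.prime_iff_prime_int.1 hp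
  have hp5' : ¬ (p : ℤ) ∣ 5 := by
    intro h
    have h3 : p ∣ 5 := by exact_mod_cast h
    have h4 := Nat.le_of_dvd (by norm_num) h3
    omega
  have hcop : ∀ z : ℤ, ¬ (p : ℤ) ∣ z → IsCoprime ((p ^ a : ℕ) : ℤ) z := fun z hz => by
    rw [Nat.cast_pow]
    exact IsCoprime.pow_left ((Prime.coprime_iff_not_dvd hpp).2 hz)
  have hc5 := hcop 5 hp5'
  have hpr : ¬ (p : ℤ) ∣ (r : ℤ) ^ 2 + (r : ℤ) * 1 - 1 ^ 2 := by
    intro h
    have h3 : p ∣ nr r := by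
      have h4 : (r : ℤ) ^ 2 + (r : ℤ) * 1 - 1 ^ 2 = (r : ℤ) ^ 2 + r - 1 := by ring
      rw [h4] at h
      exact Int.natCast_dvd.1 h
    have h4 : p ∣ 1 := by
      rw [← (show Nat.gcd (nr r) p = 1 from hr)]
      exact Nat.dvd_gcd h3 dvd_rfl
    exact hp.one_lt.ne' (Nat.dvd_one.1 h4)
  have hcr : IsCoprime ((p ^ a : ℕ) : OO) (5 * ((⟨(r : ℤ), 1⟩ : OO) * star (⟨(r : ℤ), 1⟩ : OO))) :=
    Z3_cop _ _ _ (hc5.mul_right (hcop _ hpr))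
  have hdt : dt (⟨n, k⟩ : OO) ⟨(r : ℤ), 1⟩ = k * r - n := by
    show k * (r : ℤ) - n * 1 = k * r - n
    ring
  have hW' : FF ⟨n, k⟩ (va4 v) (vz4 v) = 0 := hW
  have hG' : ((p ^ a : ℕ) : OO) ∣ FF ⟨(r : ℤ), 1⟩ (va4 v) (vz4 v) := hG
  have hW1 : ((p ^ a : ℕ) : OO) ∣ FF ⟨n, k⟩ (va4 v) (vz4 v) := by
    rw [hW']
    exact dvd_zero _
  refine ⟨fun hD => ?_, fun hD => ?_⟩
  · have hpk : ¬ (p : ℤ) ∣ k := by
      intro h
      have h2 : (p : ℤ) ∣ n := by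
        have e : n = k * r - (k * r - n) := by ring
        rw [e]
        exact dvd_sub (Dvd.dvd.mul_right h _) hD
      exact hpp.not_isUnit (hnk.isUnit_of_dvd' h2 h)
    have hN : ¬ (p : ℤ) ∣ n ^ 2 + n * k - k ^ 2 := by
      intro h
      have h2 : (p : ℤ) ∣ k ^ 2 * ((r : ℤ) ^ 2 + (r : ℤ) * 1 - 1 ^ 2) := by
        have e : k ^ 2 * ((r : ℤ) ^ 2 + (r : ℤ) * 1 - 1 ^ 2) =
            (k * r - n) * (k * r + n + k) + (n ^ 2 + n * k - k ^ 2) := by ring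
        rw [e]
        exact dvd_add (Dvd.dvd.mul_right hD _) h
      rcases hpp.dvd_or_dvd h2 with h3 | h3
      · exact hpk (hpp.dvd_of_dvd_pow h3)
      · exact hpr h3
    have h2 := h1 (p ^ a) (va4 v) (vz4 v) ⟨n, k⟩ ⟨(r : ℤ), 1⟩ (Z3_cop _ _ _ (hc5.mul_right (hcop _ hN))) hcr
      hW1 hG' ?_ ?_
    · rw [hdt, Nat.cast_pow] at h2
      exact h2
    · intro q hq hqp
      have h3 : q = p := (Nat.prime_dvd_prime_iff_eq hq hp).1 (hq.dvd_of_dvd_pow hqp)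
      rw [h3, hdt]
      exact hD
    · intro q hq hqp h4
      have h3 : q = p := (Nat.prime_dvd_prime_iff_eq hq hp).1 (hq.dvd_of_dvd_pow hqp)
      rw [h3, WSE_nat, WSE_nat] at h4
      exact hPm p hp dvd_rfl ⟨h4.1.1, h4.1.2, h4.2.1, h4.2.2⟩
  · have hF : ∀ κ : OO, ((p ^ a : ℕ) : OO) ∣ FF κ (va4 v) (vz4 v) →
        ((p ^ a : ℕ) : OO) ∣ 5 * (va4 v) * κ ^ 3 - 2 * (-(star ph * (vz4 v))) * κ * star κ ^ 2 +
          (-star (vz4 v)) * star κ ^ 3 ∧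
        ((p ^ a : ℕ) : OO) ∣ -(star ph * (vz4 v)) * κ ^ 3 + 2 * (-star (vz4 v)) * κ ^ 2 * star κ -
          5 * (-(star ph * star (va4 v))) * star κ ^ 3 := by
      intro κ hκ
      constructor
      · refine hκ.trans (dvd_of_eq ?_)
        unfold FF
        ring
      · rw [← WSE_FF2]
        refine Dvd.dvd.mul_left ?_ _
        obtain ⟨c, hc⟩ := hκ
        refine ⟨star c, ?_⟩
        rw [hc, star_mul', WSE_star_nat]
    have hn3 : IsCoprime ((p ^ a : ℕ) : OO) (5 * (⟨(r : ℤ), 1⟩ : OO) ^ 3) :=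
      hcr.of_mul_right_left.mul_right hcr.of_mul_right_right.of_mul_right_left.pow_right
    obtain ⟨dA, dA'⟩ := Z3_div ((p ^ a : ℕ) : OO) (va4 v) (-(star ph * (vz4 v))) (-star (vz4 v))
      (-(star ph * star (va4 v))) ⟨n, k⟩ (star ⟨n, k⟩) ⟨(r : ℤ), 1⟩ (star ⟨(r : ℤ), 1⟩) hn3
      (hF _ hW1).1 (hF _ hW1).2 (hF _ hG').1 (hF _ hG').2
    rw [Z3_E, WSE_dt, hdt] at dA dA'
    have c5 : IsCoprime ((p ^ a : ℕ) : OO) 5 := hcr.of_mul_right_left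
    have cr : IsCoprime ((p ^ a : ℕ) : OO) r5 := by
      rw [← WSE_r5] at c5
      exact c5.of_mul_right_left
    have fa : ((p ^ a : ℕ) : OO) ∣ ((((5 * (((n + k) * r - k) * (n * r + n - k))) ^ 2 * (k * r - n) : ℤ)) : OO) * va4 v := by
      refine cr.dvd_of_dvd_mul_left (dA.trans (dvd_of_eq ?_))
      rw [Z3_cast]
      ring
    have fz : ((p ^ a : ℕ) : OO) ∣ ((((5 * (((n + k) * r - k) * (n * r + n - k))) ^ 2 * (k * r - n) : ℤ)) : OO) * vz4 v := by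
      refine cr.dvd_of_dvd_mul_left ((dA'.mul_left ph).trans (dvd_of_eq ?_))
      rw [Z3_cast]
      linear_combination (-((5 * (((n + k) * r - k) * (n * r + n - k)) : ℤ) : OO) ^ 2 *
        (r5 * ((k * r - n : ℤ) : OO)) * vz4 v) * WSE_ph
    rw [WSE_nat] at fa fz
    have fa1 : ((p ^ a : ℕ) : ℤ) ∣ ((5 * (((n + k) * r - k) * (n * r + n - k))) ^ 2 * (k * r - n)) * v.1 := by
      refine fa.1.trans (dvd_of_eq ?_)
      rw [(Z3_re _ _).1]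
      rfl
    have fa2 : ((p ^ a : ℕ) : ℤ) ∣ ((5 * (((n + k) * r - k) * (n * r + n - k))) ^ 2 * (k * r - n)) * v.2.1 := by
      refine fa.2.trans (dvd_of_eq ?_)
      rw [(Z3_re _ _).2]
      rfl
    have fz1 : ((p ^ a : ℕ) : ℤ) ∣ ((5 * (((n + k) * r - k) * (n * r + n - k))) ^ 2 * (k * r - n)) * v.2.2.1 := by
      refine fz.1.trans (dvd_of_eq ?_)
      rw [(Z3_re _ _).1]
      rfl
    have fz2 : ((p ^ a : ℕ) : ℤ) ∣ ((5 * (((n + k) * r - k) * (n * r + n - k))) ^ 2 * (k * r - n)) * v.2.2.2 := by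
      refine fz.2.trans (dvd_of_eq ?_)
      rw [(Z3_re _ _).2]
      rfl
    have hmain : ((p ^ a : ℕ) : ℤ) ∣ (5 * (((n + k) * r - k) * (n * r + n - k))) ^ 2 * (k * r - n) := by
      have h4 : ¬ ((p : ℤ) ∣ v.1 ∧ (p : ℤ) ∣ v.2.1 ∧ (p : ℤ) ∣ v.2.2.1 ∧ (p : ℤ) ∣ v.2.2.2) := hPm p hp dvd_rfl
      by_cases hA : (p : ℤ) ∣ v.1
      · by_cases hA' : (p : ℤ) ∣ v.2.1
        · by_cases hB : (p : ℤ) ∣ v.2.2.1
          · have hX : ¬ (p : ℤ) ∣ v.2.2.2 := fun hX => h4 ⟨hA, hA', hB, hX⟩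
            exact (hcop _ hX).dvd_of_dvd_mul_right fz2
          · exact (hcop _ hB).dvd_of_dvd_mul_right fz1
        · exact (hcop _ hA').dvd_of_dvd_mul_right fa2
      · exact (hcop _ hA).dvd_of_dvd_mul_right fa1
    have h5 := (hcop _ hD).dvd_of_dvd_mul_right hmain
    rw [mul_pow] at h5
    have h6 := (hc5.pow_right (n := 2)).dvd_of_dvd_mul_left h5
    rw [Nat.cast_pow] at h6
    exact h6

end Pool.Agent.RL
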